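import Pool.Agent.Helper77.DI.Base

/-! DI-PHI (b): constraints satisfied by the data of a highest weight element with `phi F ≠ 0`. -/

namespace Pool.Agent.Helper77.DI

open MvPolynomial

namespace PhiB

/-- the point at which `phi` evaluates -/
def pt {ι : Type} [Fintype ι] (s t : ℂ) (α : ι → Fin 2) : ℂ := if α = 0 then s + t else t

theorem phi_eval {ι : Type} [Fintype ι] (F : MvPolynomial (ι → Fin 2) ℂ) (t : ℂ) :
    (phi F).eval t = eval (pt 1 t) F := by
  have h : ((Polynomial.aeval t).comp (phi (ι := ι)) : MvPolynomial (ι → Fin 2) ℂ →ₐ[ℂ] ℂ)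
      = aeval (pt 1 t) := by
    apply MvPolynomial.algHom_ext
    intro α
    simp only [AlgHom.comp_apply, phi, aeval_X, pt]
    split_ifs
    · simp [add_comm]
    · simp
  have h2 := congrArg (fun f => f F) h
  simpa [AlgHom.comp_apply, Polynomial.aeval_def, aeval_eq_eval] using h2

/-- invariance of the evaluation under the unipotent substitution in one column -/
theorem eval_inv {ι : Type} [DecidableEq ι]
    {F : MvPolynomial (ι → Fin 2) ℂ} {k : ℕ} {b : ι → ℕ} (hF : HW F k b)
    (i : ι) (τ : ℂ) (x : (ι → Fin 2) → ℂ) :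
    eval (fun α => if α i = 1 then x α + τ * x (Function.update α i 0) else x α) F = eval x F := by
  have h : ((aeval x).comp (uMap i τ) : MvPolynomial (ι → Fin 2) ℂ →ₐ[ℂ] ℂ)
      = aeval (fun α => if α i = 1 then x α + τ * x (Function.update α i 0) else x α) := by
    apply MvPolynomial.algHom_ext
    intro α
    simp only [AlgHom.comp_apply, uMap, aeval_X]
    split_ifs
    · simp
    · simp
  have h2 := congrArg (fun f => f F) h
  simp only [AlgHom.comp_apply, hF.inv i τ] at h2
  simpa [aeval_eq_eval] using h2.symm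

variable {ι : Type} [Fintype ι] [DecidableEq ι]

/-- the shear in column `i` -/
def shear (i : ι) (τ : ℂ) (w : ι → Fin 2 → ℂ) : ι → Fin 2 → ℂ :=
  Function.update w i fun a => if a = 1 then w i 1 + τ * w i 0 else w i a

theorem prod_shear (i : ι) (τ : ℂ) (w : ι → Fin 2 → ℂ) (α : ι → Fin 2) :
    ∏ j, shear i τ w j (α j) =
      if α i = 1 then ∏ j, w j (α j) + τ * ∏ j, w j (Function.update α i 0 j)
      else ∏ j, w j (α j) := by
  rw [← Finset.mul_prod_erase Finset.univ _ (Finset.mem_univ i),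
    ← Finset.mul_prod_erase Finset.univ (fun j => w j (α j)) (Finset.mem_univ i),
    ← Finset.mul_prod_erase Finset.univ (fun j => w j (Function.update α i 0 j))
      (Finset.mem_univ i)]
  have h1 : ∏ j ∈ Finset.univ.erase i, shear i τ w j (α j)
      = ∏ j ∈ Finset.univ.erase i, w j (α j) := by
    apply Finset.prod_congr rfl
    intro j hj
    rw [shear, Function.update_of_ne (Finset.ne_of_mem_erase hj)]
  have h2 : ∏ j ∈ Finset.univ.erase i, w j (Function.update α i 0 j)
      = ∏ j ∈ Finset.univ.erase i, w j (α j) := by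
    apply Finset.prod_congr rfl
    intro j hj
    rw [Function.update_of_ne (Finset.ne_of_mem_erase hj)]
  rw [h1, h2]
  simp only [shear, Function.update_self]
  split_ifs with h
  · rw [h]; ring
  · rfl

theorem eval_shear {F : MvPolynomial (ι → Fin 2) ℂ} {k : ℕ} {b : ι → ℕ} (hF : HW F k b)
    (i : ι) (τ s t : ℂ) (v u : ι → Fin 2 → ℂ) :
    eval (fun α => s * ∏ j, shear i τ v j (α j) + t * ∏ j, shear i τ u j (α j)) F
      = eval (fun α => s * ∏ j, v j (α j) + t * ∏ j, u j (α j)) F := by
  rw [← eval_inv hF i τ (fun α => s * ∏ j, v j (α j) + t * ∏ j, u j (α j))]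
  refine congrArg (fun x => eval x F) (funext fun α => ?_)
  rw [prod_shear, prod_shear]
  split_ifs
  · ring
  · rfl

/-- intermediate tensors -/
def vS (S : Finset ι) (i : ι) (a : Fin 2) : ℂ := if a = 1 then (if i ∈ S then -1 else 0) else 1
def uS (S : Finset ι) (i : ι) (a : Fin 2) : ℂ := if a = 1 then (if i ∈ S then 0 else 1) else 1

theorem shear_vS (S : Finset ι) (i : ι) (hi : i ∉ S) : shear i (-1) (vS S) = vS (insert i S) := by
  funext j a
  by_cases hj : j = i
  · subst hj
    simp only [shear, Function.update_self, vS]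
    split_ifs <;> simp_all
  · rw [shear, Function.update_of_ne hj]
    simp [vS, hj]

theorem shear_uS (S : Finset ι) (i : ι) (hi : i ∉ S) : shear i (-1) (uS S) = uS (insert i S) := by
  funext j a
  by_cases hj : j = i
  · subst hj
    simp only [shear, Function.update_self, uS]
    split_ifs <;> simp_all
  · rw [shear, Function.update_of_ne hj]
    simp [uS, hj]

theorem eval_S {F : MvPolynomial (ι → Fin 2) ℂ} {k : ℕ} {b : ι → ℕ} (hF : HW F k b)
    (s t : ℂ) (S : Finset ι) :
    eval (fun α => s * ∏ j, vS S j (α j) + t * ∏ j, uS S j (α j)) F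
      = eval (pt s t) F := by
  induction S using Finset.induction_on with
  | empty =>
    refine congrArg (fun x => eval x F) (funext fun α => ?_)
    have h1 : ∏ j, vS ∅ j (α j) = if α = 0 then 1 else 0 := by
      split_ifs with h
      · subst h; simp [vS]
      · obtain ⟨i, hi⟩ := Function.ne_iff.mp h
        apply Finset.prod_eq_zero (Finset.mem_univ i)
        have : α i = 1 := by
          have := hi
          simp only [Pi.zero_apply] at this
          omega
        simp [vS, this]
    have h2 : ∏ j, uS ∅ j (α j) = 1 := by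
      apply Finset.prod_eq_one
      intro j _
      simp [uS]
    rw [h1, h2, pt]
    split_ifs <;> ring
  | insert i S hi ih =>
    rw [← ih, ← eval_shear hF i (-1) s t (vS S) (uS S), shear_vS S i hi, shear_uS S i hi]

/-- sign of `α` -/
def sg (α : ι → Fin 2) : ℂ := ∏ i, (-1 : ℂ) ^ (α i : ℕ)

theorem eval_sg {F : MvPolynomial (ι → Fin 2) ℂ} {k : ℕ} {b : ι → ℕ} (hF : HW F k b)
    (x : (ι → Fin 2) → ℂ) :
    eval (fun α => sg α * x α) F = (-1) ^ (∑ i, b i) * eval x F := by
  rw [eval_eq', eval_eq', Finset.mul_sum]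
  apply Finset.sum_congr rfl
  intro m hm
  have h1 : ∏ α, (sg α * x α) ^ m α = (∏ α, sg α ^ m α) * ∏ α, x α ^ m α := by
    rw [← Finset.prod_mul_distrib]
    apply Finset.prod_congr rfl
    intro α _
    rw [mul_pow]
  have h2 : ∏ α, (sg α : ℂ) ^ m α = (-1) ^ (∑ i, b i) := by
    have h3 : ∀ i, b i = ∑ α, m α * (α i : ℕ) := by
      intro i
      rw [← hF.weight m hm i, Finsupp.sum_fintype]
      intro α; simp
    simp only [sg]
    calc ∏ α : ι → Fin 2, (∏ i, (-1 : ℂ) ^ (α i : ℕ)) ^ m α
        = ∏ α : ι → Fin 2, ∏ i, (-1 : ℂ) ^ (m α * (α i : ℕ)) := by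
          apply Finset.prod_congr rfl
          intro α _
          rw [← Finset.prod_pow]
          apply Finset.prod_congr rfl
          intro i _
          rw [← pow_mul, mul_comm]
      _ = ∏ i, ∏ α : ι → Fin 2, (-1 : ℂ) ^ (m α * (α i : ℕ)) := Finset.prod_comm
      _ = ∏ i, (-1 : ℂ) ^ (b i) := by
          apply Finset.prod_congr rfl
          intro i _
          rw [Finset.prod_pow_eq_pow_sum, h3 i]
      _ = _ := by rw [Finset.prod_pow_eq_pow_sum]
  rw [h1, h2]
  ring

theorem eval_swap {F : MvPolynomial (ι → Fin 2) ℂ} {k : ℕ} {b : ι → ℕ} (hF : HW F k b)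
    (s t : ℂ) : eval (pt s t) F = (-1) ^ (∑ i, b i) * eval (pt t s) F := by
  rw [← eval_sg hF, ← eval_S hF s t Finset.univ]
  refine congrArg (fun x => eval x F) (funext fun α => ?_)
  have h1 : ∏ j, vS Finset.univ j (α j) = sg α := by
    apply Finset.prod_congr rfl
    intro j _
    simp only [vS, Finset.mem_univ, if_true]
    rcases Fin.exists_fin_two.mp ⟨α j, rfl⟩ with h | h <;> rw [h] <;> simp
  have h2 : ∏ j, uS Finset.univ j (α j) = if α = 0 then 1 else 0 := by
    split_ifs with h
    · subst h; simp [uS]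
    · obtain ⟨i, hi⟩ := Function.ne_iff.mp h
      apply Finset.prod_eq_zero (Finset.mem_univ i)
      have : α i = 1 := by
        have := hi
        simp only [Pi.zero_apply] at this
        omega
      simp [uS, this]
  rw [h1, h2, pt]
  split_ifs with h
  · subst h; simp [sg]; ring
  · ring

theorem sum_eq {F : MvPolynomial (ι → Fin 2) ℂ} {k : ℕ} {b : ι → ℕ} (hF : HW F k b)
    {m : (ι → Fin 2) →₀ ℕ} (hm : m ∈ F.support) : ∑ α, m α = k := by
  have h := hF.homog (mem_support_iff.mp hm)
  rw [← h, Finsupp.weight_apply, Finsupp.sum_fintype]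
  · simp
  · simp

theorem b_eq {F : MvPolynomial (ι → Fin 2) ℂ} {k : ℕ} {b : ι → ℕ} (hF : HW F k b)
    {m : (ι → Fin 2) →₀ ℕ} (hm : m ∈ F.support) (i : ι) : b i = ∑ α, m α * (α i : ℕ) := by
  rw [← hF.weight m hm i, Finsupp.sum_fintype]
  intro α; simp

theorem phi_eq (F : MvPolynomial (ι → Fin 2) ℂ) :
    phi F = ∑ m ∈ F.support, Polynomial.C (coeff m F) *
      ∏ α : ι → Fin 2, (if α = 0 then Polynomial.X + 1 else Polynomial.X) ^ m α := by
  rw [phi, aeval_def, eval₂_eq']
  apply Finset.sum_congr rfl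
  intro m _
  congr 1
  apply Finset.prod_congr rfl
  intro α _
  split_ifs <;> rfl

/-- homogeneity -/
theorem eval_smul {F : MvPolynomial (ι → Fin 2) ℂ} {k : ℕ} {b : ι → ℕ} (hF : HW F k b)
    (c : ℂ) (x : (ι → Fin 2) → ℂ) : eval (fun α => c * x α) F = c ^ k * eval x F := by
  rw [eval_eq', eval_eq', Finset.mul_sum]
  apply Finset.sum_congr rfl
  intro m hm
  have h1 : ∏ α, (c * x α) ^ m α = c ^ k * ∏ α, x α ^ m α := by
    rw [← sum_eq hF hm, ← Finset.prod_pow_eq_pow_sum, ← Finset.prod_mul_distrib]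
    apply Finset.prod_congr rfl
    intro α _
    rw [mul_pow]
  rw [h1]
  ring

theorem phi_symm {F : MvPolynomial (ι → Fin 2) ℂ} {k : ℕ} {b : ι → ℕ} (hF : HW F k b)
    (t : ℂ) (ht : t ≠ 0) :
    (phi F).eval t = (-1) ^ (∑ i, b i) * (t ^ k * (phi F).eval t⁻¹) := by
  rw [phi_eval, phi_eval, eval_swap hF, ← eval_smul hF]
  congr 1
  refine congrArg (fun x => eval x F) (funext fun α => ?_)
  simp only [pt]
  split_ifs
  · field_simp
  · field_simp

theorem natDegree_le {F : MvPolynomial (ι → Fin 2) ℂ} {k : ℕ} {b : ι → ℕ} (hF : HW F k b) :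
    (phi F).natDegree ≤ k := by
  rw [phi_eq]
  apply Polynomial.natDegree_sum_le_of_forall_le
  intro m hm
  refine (Polynomial.natDegree_C_mul_le _ _).trans ?_
  refine (Polynomial.natDegree_prod_le _ _).trans ?_
  rw [← sum_eq hF hm]
  apply Finset.sum_le_sum
  intro α _
  refine Polynomial.natDegree_pow_le.trans ?_
  have : (if α = 0 then (Polynomial.X + 1 : Polynomial ℂ) else Polynomial.X).natDegree ≤ 1 := by
    split_ifs
    · rw [← Polynomial.C_1, Polynomial.natDegree_X_add_C]
    · exact Polynomial.natDegree_X_le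
  calc m α * _ ≤ m α * 1 := Nat.mul_le_mul_left _ this
    _ = m α := mul_one _

theorem X_pow_dvd {F : MvPolynomial (ι → Fin 2) ℂ} {k : ℕ} {b : ι → ℕ} (hF : HW F k b) (i : ι) :
    (Polynomial.X : Polynomial ℂ) ^ b i ∣ phi F := by
  rw [phi_eq]
  apply Finset.dvd_sum
  intro m hm
  apply Dvd.dvd.mul_left
  rw [b_eq hF hm i, ← Finset.prod_pow_eq_pow_sum]
  apply Finset.prod_dvd_prod_of_dvd
  intro α _
  split_ifs with h
  · subst h; simp
  · apply pow_dvd_pow
    have : (α i : ℕ) ≤ 1 := by omega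
    calc m α * (α i : ℕ) ≤ m α * 1 := Nat.mul_le_mul_left _ this
      _ = m α := mul_one _

theorem Xp_pow_dvd {F : MvPolynomial (ι → Fin 2) ℂ} {k : ℕ} {b : ι → ℕ} (hF : HW F k b) :
    (Polynomial.X + 1 : Polynomial ℂ) ^ (k - ∑ i, b i) ∣ phi F := by
  rw [phi_eq]
  apply Finset.dvd_sum
  intro m hm
  apply Dvd.dvd.mul_left
  refine dvd_trans ?_ (Finset.dvd_prod_of_mem _ (Finset.mem_univ (0 : ι → Fin 2)))
  rw [if_pos rfl]
  apply pow_dvd_pow
  have h1 : ∑ i, b i = ∑ α : ι → Fin 2, m α * ∑ i, (α i : ℕ) := by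
    simp only [b_eq hF hm, Finset.mul_sum]
    exact Finset.sum_comm
  have h2 : ∑ α ∈ Finset.univ.erase (0 : ι → Fin 2), m α ≤ ∑ i, b i := by
    rw [h1]
    calc ∑ α ∈ Finset.univ.erase (0 : ι → Fin 2), m α
        ≤ ∑ α ∈ Finset.univ.erase (0 : ι → Fin 2), m α * ∑ i, (α i : ℕ) := by
          apply Finset.sum_le_sum
          intro α hα
          obtain ⟨i, hi⟩ := Function.ne_iff.mp (Finset.ne_of_mem_erase hα)
          have h3 : 1 ≤ (α i : ℕ) := by
            simp only [Pi.zero_apply] at hi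
            omega
          have h4 : (α i : ℕ) ≤ ∑ i, (α i : ℕ) :=
            Finset.single_le_sum (f := fun i => (α i : ℕ)) (fun _ _ => Nat.zero_le _)
              (Finset.mem_univ i)
          calc m α = m α * 1 := (mul_one _).symm
            _ ≤ _ := Nat.mul_le_mul_left _ (h3.trans h4)
      _ ≤ _ := Finset.sum_le_sum_of_subset (Finset.subset_univ _)
  have h3 := sum_eq hF hm
  rw [← Finset.add_sum_erase Finset.univ _ (Finset.mem_univ (0 : ι → Fin 2))] at h3
  omega

theorem reflect_eq {F : MvPolynomial (ι → Fin 2) ℂ} {k : ℕ} {b : ι → ℕ} (hF : HW F k b) :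
    (phi F).reflect k = Polynomial.C ((-1) ^ (∑ i, b i)) * phi F := by
  apply Polynomial.eq_of_infinite_eval_eq
  apply Set.Infinite.mono _ (Set.Finite.infinite_compl (Set.finite_singleton (0 : ℂ)))
  intro t ht
  have ht0 : t ≠ 0 := ht
  simp only [Set.mem_ofPred_eq]
  have h1 := phi_symm hF t⁻¹ (inv_ne_zero ht0)
  letI : Invertible (t⁻¹) := invertibleOfNonzero (inv_ne_zero ht0)
  have h2 := Polynomial.eval₂_reflect_mul_pow (RingHom.id ℂ) t⁻¹ k (phi F) (natDegree_le hF)
  rw [invOf_eq_inv, inv_inv] at h2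
  simp only [Polynomial.eval₂_id] at h2
  rw [inv_inv] at h1
  rw [h1] at h2
  have h3 : (t⁻¹) ^ k ≠ 0 := pow_ne_zero _ (inv_ne_zero ht0)
  rw [Polynomial.eval_mul, Polynomial.eval_C]
  apply mul_right_cancel₀ h3
  rw [h2]
  ring

theorem coeff_symm {F : MvPolynomial (ι → Fin 2) ℂ} {k : ℕ} {b : ι → ℕ} (hF : HW F k b)
    (j : ℕ) (hj : j ≤ k) :
    (phi F).coeff (k - j) = (-1) ^ (∑ i, b i) * (phi F).coeff j := by
  have h := congrArg (fun p => Polynomial.coeff p j) (reflect_eq hF)
  simp only [Polynomial.coeff_reflect, Polynomial.coeff_C_mul] at h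
  rwa [Polynomial.revAt_le hj] at h

end PhiB

open PhiB in
/-- DI-PHI (b). -/
theorem valid_of_hw {ι : Type} [Fintype ι] [Nonempty ι] [DecidableEq ι]
    {F : MvPolynomial (ι → Fin 2) ℂ} {k : ℕ} {b : ι → ℕ} (hF : HW F k b) (h0 : phi F ≠ 0) :
    Valid (k, (phi F).natTrailingDegree, Finset.univ.val.map b) := by
  set r := (phi F).natTrailingDegree with hr
  have hc : (phi F).coeff r ≠ 0 := Polynomial.trailingCoeff_nonzero_iff_nonzero.mpr h0
  have hrk : r ≤ k := (Polynomial.natTrailingDegree_le_natDegree _).trans (natDegree_le hF)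
  have hc' : (phi F).coeff (k - r) ≠ 0 := by
    rw [coeff_symm hF r hrk]
    exact mul_ne_zero (pow_ne_zero _ (by norm_num)) hc
  have h2 : r ≤ k - r := Polynomial.natTrailingDegree_le_of_ne_zero hc'
  have hdeg : (phi F).natDegree ≤ k - r := by
    rw [Polynomial.natDegree_le_iff_coeff_eq_zero]
    intro j hj
    by_cases hjk : j ≤ k
    · have h3 := coeff_symm hF (k - j) (Nat.sub_le _ _)
      rw [Nat.sub_sub_self hjk] at h3
      rw [h3, Polynomial.coeff_eq_zero_of_lt_natTrailingDegree, mul_zero]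
      rw [← hr]
      omega
    · exact Polynomial.coeff_eq_zero_of_natDegree_lt (lt_of_le_of_lt (natDegree_le hF) (by omega))
  have hXr : (Polynomial.X : Polynomial ℂ) ^ r ∣ phi F := by
    rw [Polynomial.X_pow_dvd_iff]
    intro d hd
    exact Polynomial.coeff_eq_zero_of_lt_natTrailingDegree hd
  have hsum : (Finset.univ.val.map b).sum = ∑ i, b i := rfl
  refine ⟨?_, ?_, ?_, ?_, ?_⟩
  · simp only [ne_eq, Multiset.map_eq_zero, Finset.val_eq_zero]
    exact Finset.univ_nonempty.ne_empty
  · intro c hc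
    obtain ⟨i, _, rfl⟩ := Multiset.mem_map.mp hc
    change b i ≤ r
    rw [hr]
    by_contra hlt
    push Not at hlt
    have h3 := Polynomial.X_pow_dvd_iff.mp (X_pow_dvd hF i) _ hlt
    exact hc' (by rw [coeff_symm hF r hrk, h3, mul_zero])
  · change 2 * r ≤ k
    omega
  · change 2 * r ≤ (Finset.univ.val.map b).sum
    rw [hsum]
    have hcop : IsCoprime ((Polynomial.X : Polynomial ℂ) ^ r)
        ((Polynomial.X + 1) ^ (k - ∑ i, b i)) := by
      apply IsCoprime.pow
      exact ⟨-1, 1, by ring⟩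
    have hd := hcop.mul_dvd hXr (Xp_pow_dvd hF)
    have h3 := Polynomial.natDegree_le_of_dvd hd h0
    have hm1 : (Polynomial.X : Polynomial ℂ).Monic := Polynomial.monic_X
    have hm2 : (Polynomial.X + 1 : Polynomial ℂ).Monic := by
      rw [← Polynomial.C_1]; exact Polynomial.monic_X_add_C 1
    rw [(hm1.pow r).natDegree_mul (hm2.pow _), hm1.natDegree_pow, hm2.natDegree_pow,
      Polynomial.natDegree_X, ← Polynomial.C_1, Polynomial.natDegree_X_add_C] at h3
    omega
  · intro hk
    change k = 2 * r at hk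
    change Even (Finset.univ.val.map b).sum
    rw [hsum]
    have h3 := coeff_symm hF r hrk
    rw [show k - r = r by omega] at h3
    by_contra hodd
    rw [Nat.not_even_iff_odd] at hodd
    rw [hodd.neg_one_pow] at h3
    apply hc
    linear_combination (1 / 2) * h3

end Pool.Agent.Helper77.DI
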